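import Pool.Agent.Helper604.NSG

set_option autoImplicit false

namespace Pool.Agent.Results.MP_36a309_al.BettiUnbounded

open Pool.Agent.Helper604.NSG

/-- For every `e ≥ 8` the first Betti number (the number of relations) is unbounded on the
numerical semigroups of embedding dimension `e` that are both almost symmetric and nearly
Gorenstein. -/
theorem result (k : Type*) [Field k] : ∀ e : ℕ, 8 ≤ e → ∀ C : ℕ, ∃ Γ : AddSubmonoid ℕ,
    IsNumericalSemigroup Γ ∧ IsAlmostSymmetric Γ ∧ IsNearlyGorenstein Γ ∧ edim Γ = e ∧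
      (C : ℕ∞) < rho k Γ := by
  intro e he C
  obtain ⟨G⟩ := Pool.Agent.Helper604.Glue.good e (C + 1) he
  refine ⟨sg G, sg_num G, symm_as (sg_symm G), sg_ng G, sg_edim G, ?_⟩
  refine lt_of_lt_of_le ?_ (rho_ge k G)
  exact_mod_cast Nat.lt_succ_self C

end Pool.Agent.Results.MP_36a309_al.BettiUnbounded
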